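import Mathlib
import Pool.Agent.ConvEmb.Base

set_option autoImplicit false

/-!
# Growth of the convex-embedding extremal function

For all `2 ≤ d < k` there are `k`-uniform hypergraphs on `n` vertices with at least `c n ^ d` edges
which admit a convex embedding into `ℝ ^ d`.
-/

namespace Pool.Agent.Results.MP_da9eaf_co.PowerGrowth

open Finset Asymptotics Filter Pool.Agent.ConvEmb

/-- The `k`-barycenter of the vertex set `e` under the placement `f` of the vertices. -/
noncomputable def barycenter {V : Type} {d : ℕ} (k : ℕ) (f : V → (Fin d → ℝ)) (e : Finset V) :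
    Fin d → ℝ :=
  (1 / (k : ℝ)) • ∑ v ∈ e, f v

/-- `f` is a convex embedding of the hypergraph with edge set `E`: it is injective and the
barycenter of no edge is a convex combination of the barycenters of the other edges. -/
def IsConvexEmbedding {V : Type} {d : ℕ} (k : ℕ) (E : Finset (Finset V))
    (f : V → (Fin d → ℝ)) : Prop :=
  Function.Injective f ∧
    ∀ e ∈ E, barycenter k f e ∉
      convexHull ℝ (barycenter k f '' {e' : Finset V | e' ∈ E ∧ e' ≠ e})

/-- `g k n d`: the largest number of edges of a `k`-uniform hypergraph on `n` vertices which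
admits a convex embedding into `ℝ ^ d`. -/
noncomputable def g (k n d : ℕ) : ℕ :=
  sSup {N : ℕ | ∃ E : Finset (Finset (Fin n)), (∀ e ∈ E, e.card = k) ∧
    (∃ f : Fin n → (Fin d → ℝ), IsConvexEmbedding k E f) ∧ E.card = N}

private theorem le_g {k n d : ℕ} (E : Finset (Finset (Fin n))) (hk : ∀ e ∈ E, e.card = k)
    (f : Fin n → (Fin d → ℝ)) (hf : IsConvexEmbedding k E f) : E.card ≤ g k n d := by
  apply le_csSup
  · refine ⟨Fintype.card (Finset (Fin n)), ?_⟩
    rintro N ⟨E', -, -, rfl⟩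
    exact Finset.card_le_univ E'
  · exact ⟨E, hk, ⟨f, hf⟩, rfl⟩

/-- points whose sums lie on a common translate of the graph of the squared norm -/
private theorem hull_lemma {V : Type} {e : ℕ} (k : ℕ) (hk : 0 < k) (f : V → (Fin (e + 2) → ℝ))
    (E : Finset (Finset V)) (Y : Finset V → Fin (e + 1) → ℝ) (C : ℝ)
    (h1 : ∀ a ∈ E, ∀ j : Fin (e + 1), (∑ v ∈ a, f v) (Fin.castSucc j) = Y a j)
    (h2 : ∀ a ∈ E, (∑ v ∈ a, f v) (Fin.last (e + 1)) = ∑ j, (Y a j) ^ 2 + C)
    (hinj : ∀ a ∈ E, ∀ b ∈ E, Y a = Y b → a = b) :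
    ∀ a ∈ E, barycenter k f a ∉
      convexHull ℝ (barycenter k f '' {b : Finset V | b ∈ E ∧ b ≠ a}) := by
  intro a ha hmem
  have hk0 : (k : ℝ) ≠ 0 := by exact_mod_cast hk.ne'
  set L : (Fin (e + 2) → ℝ) → ℝ := fun z =>
    (k : ℝ) * (z (Fin.last (e + 1)) - 2 * ∑ j : Fin (e + 1), Y a j * z (Fin.castSucc j)) with hL
  have hlin : IsLinearMap ℝ L := by
    constructor
    · intro x y
      simp only [hL, Pi.add_apply, mul_add, Finset.sum_add_distrib]
      ring
    · intro c x
      simp only [hL, Pi.smul_apply, smul_eq_mul]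
      have : ∑ j : Fin (e + 1), Y a j * (c * x (Fin.castSucc j)) =
          c * ∑ j : Fin (e + 1), Y a j * x (Fin.castSucc j) := by
        rw [Finset.mul_sum]
        exact Finset.sum_congr rfl fun j _ => by ring
      rw [this]
      ring
  have hval : ∀ b ∈ E, L (barycenter k f b) =
      ∑ j, (Y b j) ^ 2 + C - 2 * ∑ j, Y a j * Y b j := by
    intro b hb
    simp only [hL, barycenter, Pi.smul_apply, smul_eq_mul]
    rw [h2 b hb]
    have : ∑ j : Fin (e + 1), Y a j * (1 / (k : ℝ) * (∑ v ∈ b, f v) (Fin.castSucc j)) =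
        (1 / (k : ℝ)) * ∑ j : Fin (e + 1), Y a j * Y b j := by
      rw [Finset.mul_sum]
      refine Finset.sum_congr rfl fun j _ => ?_
      rw [h1 b hb j]
      ring
    rw [this]
    field_simp
  have hsub : convexHull ℝ (barycenter k f '' {b : Finset V | b ∈ E ∧ b ≠ a}) ⊆
      {z | C - ∑ j, (Y a j) ^ 2 < L z} := by
    apply convexHull_min
    · rintro _ ⟨b, ⟨hb, hne⟩, rfl⟩
      change C - ∑ j, (Y a j) ^ 2 < L (barycenter k f b)
      rw [hval b hb]
      have hpos : 0 < ∑ j, (Y b j - Y a j) ^ 2 := by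
        have hYne : Y b ≠ Y a := fun h => hne (hinj b hb a ha h)
        obtain ⟨j, hj⟩ := Function.ne_iff.1 hYne
        refine Finset.sum_pos' (fun i _ => sq_nonneg _) ⟨j, Finset.mem_univ j, ?_⟩
        have : Y b j - Y a j ≠ 0 := sub_ne_zero.2 hj
        positivity
      have hexp : ∑ j, (Y b j - Y a j) ^ 2 =
          ∑ j, (Y b j) ^ 2 - 2 * ∑ j, Y a j * Y b j + ∑ j, (Y a j) ^ 2 := by
        rw [Finset.mul_sum, ← Finset.sum_sub_distrib, ← Finset.sum_add_distrib]
        exact Finset.sum_congr rfl fun j _ => by ring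
      linarith
    · exact convex_halfSpace_gt hlin _
  have := hsub hmem
  change C - ∑ j, (Y a j) ^ 2 < L (barycenter k f a) at this
  rw [hval a ha] at this
  have hsq : ∑ j, Y a j * Y a j = ∑ j, (Y a j) ^ 2 :=
    Finset.sum_congr rfl fun j _ => by ring
  rw [hsq] at this
  linarith

/-- the extremal function may be bounded below with hypergraphs on any vertex type -/
private theorem le_g_of_card_le {V : Type} [Fintype V] {k n d : ℕ} (hd : 0 < d)
    (hn : Fintype.card V ≤ n) (E : Finset (Finset V)) (hk : ∀ e ∈ E, e.card = k)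
    (f : V → (Fin d → ℝ)) (hf : IsConvexEmbedding k E f) : E.card ≤ g k n d := by
  classical
  obtain ⟨ι⟩ : Nonempty (V ↪ Fin n) :=
    Function.Embedding.nonempty_of_card_le (by simpa using hn)
  set R : ℝ := ∑ v, |f v ⟨0, hd⟩| with hR
  set f' : Fin n → (Fin d → ℝ) := fun i =>
    if h : ∃ v, ι v = i then f h.choose else fun _ => R + (i.val : ℝ) + 1 with hf'
  have hfι : ∀ v, f' (ι v) = f v := by
    intro v
    have h : ∃ w, ι w = ι v := ⟨v, rfl⟩
    simp only [hf']
    rw [dif_pos h]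
    exact congrArg f (ι.injective h.choose_spec)
  have hRle : ∀ v, f v ⟨0, hd⟩ ≤ R := fun v =>
    le_trans (le_abs_self _)
      (Finset.single_le_sum (f := fun v => |f v ⟨0, hd⟩|) (fun w _ => abs_nonneg _)
        (Finset.mem_univ v))
  have hout : ∀ i, (¬ ∃ v, ι v = i) → f' i = fun _ => R + (i.val : ℝ) + 1 := by
    intro i hi
    simp only [hf']
    rw [dif_neg hi]
  have hinj : Function.Injective f' := by
    intro i j hij
    by_cases hi : ∃ v, ι v = i
    · by_cases hj : ∃ v, ι v = j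
      · obtain ⟨v, rfl⟩ := hi
        obtain ⟨w, rfl⟩ := hj
        rw [hfι, hfι] at hij
        rw [hf.1 hij]
      · exfalso
        obtain ⟨v, rfl⟩ := hi
        rw [hfι, hout j hj] at hij
        have h0 := congrFun hij ⟨0, hd⟩
        have h1 := hRle v
        have h2 : (0 : ℝ) ≤ (j.val : ℝ) := by positivity
        linarith
    · by_cases hj : ∃ v, ι v = j
      · exfalso
        obtain ⟨v, rfl⟩ := hj
        rw [hfι, hout i hi] at hij
        have h0 := congrFun hij ⟨0, hd⟩
        have h1 := hRle v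
        have h2 : (0 : ℝ) ≤ (i.val : ℝ) := by positivity
        linarith
      · rw [hout i hi, hout j hj] at hij
        have h0 := congrFun hij ⟨0, hd⟩
        have h1 : (i.val : ℝ) = (j.val : ℝ) := by linarith
        exact Fin.ext (by exact_mod_cast h1)
  have hbar : ∀ e : Finset V, barycenter k f' (e.map ι) = barycenter k f e := by
    intro e
    unfold barycenter
    rw [Finset.sum_map]
    congr 1
    exact Finset.sum_congr rfl fun v _ => hfι v
  set E' : Finset (Finset (Fin n)) :=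
    E.map ⟨fun e => e.map ι, Finset.map_injective ι⟩ with hE'
  have hcard : E'.card = E.card := Finset.card_map _
  rw [← hcard]
  apply le_g E' _ f' ⟨hinj, _⟩
  · intro e he
    rw [hE', Finset.mem_map] at he
    obtain ⟨a, ha, rfl⟩ := he
    change (a.map ι).card = k
    rw [Finset.card_map]
    exact hk a ha
  · intro e he hmem
    rw [hE', Finset.mem_map] at he
    obtain ⟨a, ha, rfl⟩ := he
    change barycenter k f' (a.map ι) ∈ _ at hmem
    rw [hbar a] at hmem
    refine hf.2 a ha (convexHull_mono ?_ hmem)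
    rintro _ ⟨b', ⟨hb', hne⟩, rfl⟩
    rw [hE', Finset.mem_map] at hb'
    obtain ⟨b, hb, rfl⟩ := hb'
    refine ⟨b, ⟨hb, ?_⟩, (hbar b).symm⟩
    rintro rfl
    exact hne rfl

/-! ### The construction -/

/-- vertices: four blocks for the triples, `e` blocks of `m` points and `r` dummy vertices -/
private abbrev Vt (m e r : ℕ) : Type := Fin (4 * m) ⊕ ((Fin e × Fin m) ⊕ Fin r)

private noncomputable def yv (m e r : ℕ) : Vt m e r → (Fin (e + 1) → ℝ)
  | Sum.inl i => Fin.cons (1 / tv m i.val) (fun _ => 0)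
  | Sum.inr (Sum.inl p) => Fin.cons 0 (Pi.single p.1 ((p.2.val : ℝ) + 1))
  | Sum.inr (Sum.inr _) => fun _ => 0

private noncomputable def zv (m e r : ℕ) : Vt m e r → ℝ
  | Sum.inl i => (1 / tv m i.val) ^ 2
  | Sum.inr (Sum.inl p) => ((p.2.val : ℝ) + 1) ^ 2
  | Sum.inr (Sum.inr l) => -((l.val : ℝ) + 1)

private noncomputable def fv (m e r : ℕ) (v : Vt m e r) : Fin (e + 2) → ℝ :=
  Fin.snoc (α := fun _ => ℝ) (yv m e r v) (zv m e r v)

private theorem fv_castSucc (m e r : ℕ) (v : Vt m e r) (j : Fin (e + 1)) :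
    fv m e r v (Fin.castSucc j) = yv m e r v j := by
  unfold fv
  rw [Fin.snoc_castSucc]

private theorem fv_last (m e r : ℕ) (v : Vt m e r) :
    fv m e r v (Fin.last (e + 1)) = zv m e r v := by
  unfold fv
  rw [Fin.snoc_last]

private theorem fv_injective (m e r : ℕ) : Function.Injective (fv m e r) := by
  intro v w h
  have hy : ∀ j, yv m e r v j = yv m e r w j := by
    intro j
    have := congrFun h (Fin.castSucc j)
    rwa [fv_castSucc, fv_castSucc] at this
  have hz : zv m e r v = zv m e r w := by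
    have := congrFun h (Fin.last (e + 1))
    rwa [fv_last, fv_last] at this
  have hy0 := hy 0
  rcases v with i | (p | l) <;> rcases w with i' | (p' | l')
  · have h1 : 1 / tv m i.val = 1 / tv m i'.val := by simpa [yv] using hy0
    have h2 : tv m i.val = tv m i'.val := by
      have := congrArg (fun z => 1 / z) h1
      simpa using this
    exact congrArg Sum.inl (Fin.ext (tv_injective m h2))
  · exfalso
    have h1 : 1 / tv m i.val = 0 := by simpa [yv] using hy0
    exact one_div_ne_zero (tv_ne_zero m i.val) h1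
  · exfalso
    have h1 : 1 / tv m i.val = 0 := by simpa [yv] using hy0
    exact one_div_ne_zero (tv_ne_zero m i.val) h1
  · exfalso
    have h1 : 1 / tv m i'.val = 0 := by simpa [yv] using hy0.symm
    exact one_div_ne_zero (tv_ne_zero m i'.val) h1
  · obtain ⟨j, s⟩ := p
    obtain ⟨j', s'⟩ := p'
    have hj := hy j.succ
    simp only [yv, Fin.cons_succ, Pi.single_eq_same] at hj
    have hs0 : (0 : ℝ) < (s.val : ℝ) + 1 := by positivity
    by_cases hjj : j = j'
    · subst hjj
      rw [Pi.single_eq_same] at hj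
      have h3 : (s.val : ℝ) = (s'.val : ℝ) := by linarith
      have h4 : s = s' := Fin.ext (by exact_mod_cast h3)
      subst h4
      rfl
    · exfalso
      rw [Pi.single_eq_of_ne hjj] at hj
      linarith
  · exfalso
    have h1 : (0 : ℝ) < ((p.2.val : ℝ) + 1) ^ 2 := by positivity
    have h2 : (0 : ℝ) < (l'.val : ℝ) + 1 := by positivity
    simp only [zv] at hz
    linarith
  · exfalso
    have h1 : 1 / tv m i'.val = 0 := by simpa [yv] using hy0.symm
    exact one_div_ne_zero (tv_ne_zero m i'.val) h1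
  · exfalso
    have h1 : (0 : ℝ) < ((p'.2.val : ℝ) + 1) ^ 2 := by positivity
    have h2 : (0 : ℝ) < (l.val : ℝ) + 1 := by positivity
    simp only [zv] at hz
    linarith
  · simp only [zv] at hz
    have h3 : (l.val : ℝ) = (l'.val : ℝ) := by linarith
    have h4 : l = l' := Fin.ext (by exact_mod_cast h3)
    rw [h4]

/-- the edge of the pair `q` and the choice `s` -/
private def ee (m e r : ℕ) (x : (Fin m × Fin m) × (Fin e → Fin m)) : Finset (Vt m e r) :=
  (edge m x.1).disjSum
    ((Finset.univ.map ⟨fun j : Fin e => (j, x.2 j), fun _ _ h => (Prod.ext_iff.1 h).1⟩).disjSum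
      Finset.univ)

private theorem ee_card (m e r : ℕ) (x : (Fin m × Fin m) × (Fin e → Fin m)) :
    (ee m e r x).card = 3 + (e + r) := by
  unfold ee
  rw [Finset.card_disjSum, Finset.card_disjSum, edge_card, Finset.card_map, Finset.card_univ,
    Finset.card_univ, Fintype.card_fin, Fintype.card_fin]

private noncomputable def Yx (m e : ℕ) (x : (Fin m × Fin m) × (Fin e → Fin m)) :
    Fin (e + 1) → ℝ :=
  Fin.cons (X m x.1.1 x.1.2) (fun j => ((x.2 j).val : ℝ) + 1)

private theorem Yx_injective (m e : ℕ) : Function.Injective (Yx m e) := by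
  rintro ⟨⟨u, v⟩, s⟩ ⟨⟨u', v'⟩, s'⟩ h
  have h0 : X m u v = X m u' v' := by simpa [Yx] using congrFun h 0
  obtain ⟨a, b⟩ := X_inj u.isLt u'.isLt h0
  have hs : s = s' := by
    funext j
    have hj := congrFun h j.succ
    simp only [Yx, Fin.cons_succ] at hj
    have h3 : ((s j).val : ℝ) = ((s' j).val : ℝ) := by linarith
    exact Fin.ext (by exact_mod_cast h3)
  rw [Fin.ext a, Fin.ext b, hs]

private theorem ee_sum (m e r : ℕ) (x : (Fin m × Fin m) × (Fin e → Fin m)) (G : Vt m e r → ℝ) :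
    ∑ v ∈ ee m e r x, G v = ∑ i ∈ edge m x.1, G (Sum.inl i) +
      (∑ j : Fin e, G (Sum.inr (Sum.inl (j, x.2 j))) + ∑ l : Fin r, G (Sum.inr (Sum.inr l))) := by
  unfold ee
  rw [Finset.sum_disjSum, Finset.sum_disjSum, Finset.sum_map]
  rfl

private theorem sum_castSucc (m e r : ℕ) (x : (Fin m × Fin m) × (Fin e → Fin m))
    (j : Fin (e + 1)) : (∑ v ∈ ee m e r x, fv m e r v) (Fin.castSucc j) = Yx m e x j := by
  rw [Finset.sum_apply]
  have h0 : ∑ v ∈ ee m e r x, fv m e r v (Fin.castSucc j) = ∑ v ∈ ee m e r x, yv m e r v j :=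
    Finset.sum_congr rfl fun v _ => fv_castSucc m e r v j
  rw [h0, ee_sum]
  refine Fin.cases ?_ (fun i => ?_) j
  · simp only [yv, Yx, Fin.cons_zero, Finset.sum_const_zero, add_zero]
    exact edge_sum_one m x.1
  · simp only [yv, Yx, Fin.cons_succ, Finset.sum_const_zero, add_zero, zero_add]
    rw [Finset.sum_eq_single i]
    · rw [Pi.single_eq_same]
    · intro b _ hb
      rw [Pi.single_eq_of_ne (Ne.symm hb)]
    · intro h
      exact absurd (Finset.mem_univ i) h

private theorem sum_last (m e r : ℕ) (x : (Fin m × Fin m) × (Fin e → Fin m)) :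
    (∑ v ∈ ee m e r x, fv m e r v) (Fin.last (e + 1)) =
      ∑ j, (Yx m e x j) ^ 2 + ∑ l : Fin r, -((l.val : ℝ) + 1) := by
  rw [Finset.sum_apply]
  have h0 : ∑ v ∈ ee m e r x, fv m e r v (Fin.last (e + 1)) = ∑ v ∈ ee m e r x, zv m e r v :=
    Finset.sum_congr rfl fun v _ => fv_last m e r v
  rw [h0, ee_sum, Fin.sum_univ_succ]
  simp only [zv, Yx, Fin.cons_zero, Fin.cons_succ]
  rw [edge_sum_sq m x.1]
  ring

private theorem ee_injective (m e r : ℕ) : Function.Injective (ee m e r) := by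
  intro x x' h
  apply Yx_injective m e
  funext j
  rw [← sum_castSucc m e r x j, h, sum_castSucc m e r x' j]

private theorem pow_le_g (m e r n : ℕ) (hn : 4 * m + (e * m + r) ≤ n) :
    m ^ (e + 2) ≤ g (3 + (e + r)) n (e + 2) := by
  classical
  set E : Finset (Finset (Vt m e r)) := Finset.univ.image (ee m e r) with hE
  have hEcard : E.card = m ^ (e + 2) := by
    rw [hE, Finset.card_image_of_injective _ (ee_injective m e r)]
    simp only [Finset.card_univ, Fintype.card_prod, Fintype.card_fin, Fintype.card_fun]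
    ring
  rw [← hEcard]
  have hmem : ∀ a ∈ E, ∃ x, ee m e r x = a := by
    intro a ha
    rw [hE, Finset.mem_image] at ha
    obtain ⟨x, -, hx⟩ := ha
    exact ⟨x, hx⟩
  set Y : Finset (Vt m e r) → Fin (e + 1) → ℝ := fun a j =>
    (∑ v ∈ a, fv m e r v) (Fin.castSucc j) with hY
  have hYx : ∀ x, Y (ee m e r x) = Yx m e x := by
    intro x
    funext j
    exact sum_castSucc m e r x j
  apply le_g_of_card_le (V := Vt m e r) (by omega) (by simpa using hn) E _ (fv m e r)
    ⟨fv_injective m e r, _⟩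
  · intro a ha
    obtain ⟨x, rfl⟩ := hmem a ha
    exact ee_card m e r x
  · apply hull_lemma (3 + (e + r)) (by omega) (fv m e r) E Y (∑ l : Fin r, -((l.val : ℝ) + 1))
    · intro a _ j
      rfl
    · intro a ha
      obtain ⟨x, rfl⟩ := hmem a ha
      rw [sum_last, hYx]
    · intro a ha b hb hab
      obtain ⟨x, rfl⟩ := hmem a ha
      obtain ⟨x', rfl⟩ := hmem b hb
      rw [hYx, hYx] at hab
      rw [Yx_injective m e hab]

/-- For all `2 ≤ d < k` the extremal function `g_k(n, d)` is at least `c n ^ d`, hence it is not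
`Θ(n ^ α)` for any real `α < d`; so the assertion of the question fails. -/
theorem result :
    (∀ d k : ℕ, 2 ≤ d → d < k → ∃ c : ℝ, 0 < c ∧ ∃ N : ℕ, ∀ n : ℕ, N ≤ n →
      c * (n : ℝ) ^ d ≤ (g k n d : ℝ)) ∧
    (∀ d k : ℕ, 2 ≤ d → d < k → ∀ α : ℝ, α < d →
      ¬ (fun n : ℕ => (g k n d : ℝ)) =Θ[atTop] (fun n : ℕ => (n : ℝ) ^ α)) ∧
    ¬ (∀ d k : ℕ, 2 ≤ d → d ≤ k → ∃ α : ℚ, (d : ℝ) - 1 < (α : ℝ) ∧ (α : ℝ) < (d : ℝ) ∧
      (fun n : ℕ => (g k n d : ℝ)) =Θ[atTop] (fun n : ℕ => (n : ℝ) ^ (α : ℝ))) := by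
  have part1 : ∀ d k : ℕ, 2 ≤ d → d < k → ∃ c : ℝ, 0 < c ∧ ∃ N : ℕ, ∀ n : ℕ, N ≤ n →
      c * (n : ℝ) ^ d ≤ (g k n d : ℝ) := by
    intro d k hd hdk
    obtain ⟨e, rfl⟩ : ∃ e, d = e + 2 := ⟨d - 2, by omega⟩
    obtain ⟨r, rfl⟩ : ∃ r, k = 3 + (e + r) := ⟨k - 3 - e, by omega⟩
    refine ⟨(1 / (2 * ((e : ℝ) + 4))) ^ (e + 2), by positivity, 2 * (r + e + 4), ?_⟩
    intro n hn
    set m : ℕ := (n - r) / (e + 4) with hm
    have hmn : 4 * m + (e * m + r) ≤ n := by
      have h1 : (e + 4) * m ≤ n - r := Nat.mul_div_le _ _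
      have h2 : 4 * m + (e * m + r) = (e + 4) * m + r := by ring
      omega
    have h3 := pow_le_g m e r n hmn
    have h4 : (n : ℝ) ≤ 2 * ((e : ℝ) + 4) * m := by
      have h5 : n - r < (e + 4) * (m + 1) := by
        rw [hm]
        have := Nat.lt_mul_div_succ (n - r) (show 0 < e + 4 by omega)
        simpa [Nat.succ_eq_add_one] using this
      have h6 : n < (e + 4) * (m + 1) + r := by omega
      have h7 : n + 1 ≤ (e + 4) * m + (e + 4) + r := by
        have : (e + 4) * (m + 1) = (e + 4) * m + (e + 4) := by ring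
        omega
      have h8 : n ≤ 2 * ((e + 4) * m) := by omega
      have h9 : (n : ℝ) ≤ ((2 * ((e + 4) * m) : ℕ) : ℝ) := by exact_mod_cast h8
      push_cast at h9
      linarith
    have h10 : (n : ℝ) / (2 * ((e : ℝ) + 4)) ≤ m := by
      rw [div_le_iff₀ (by positivity)]
      linarith
    have h11 : (1 / (2 * ((e : ℝ) + 4))) ^ (e + 2) * (n : ℝ) ^ (e + 2) =
        ((n : ℝ) / (2 * ((e : ℝ) + 4))) ^ (e + 2) := by
      rw [← mul_pow]
      congr 1
      ring
    rw [h11]
    calc ((n : ℝ) / (2 * ((e : ℝ) + 4))) ^ (e + 2) ≤ (m : ℝ) ^ (e + 2) := by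
          gcongr
      _ ≤ _ := by exact_mod_cast h3
  have part2 : ∀ d k : ℕ, 2 ≤ d → d < k → ∀ α : ℝ, α < d →
      ¬ (fun n : ℕ => (g k n d : ℝ)) =Θ[atTop] (fun n : ℕ => (n : ℝ) ^ α) := by
    intro d k hd hdk α hα hth
    obtain ⟨c, hc, N, hN⟩ := part1 d k hd hdk
    have h1 : (fun n : ℕ => (n : ℝ) ^ (d : ℝ)) =O[atTop] (fun n : ℕ => (g k n d : ℝ)) := by
      refine IsBigO.of_bound (1 / c) ?_
      filter_upwards [eventually_ge_atTop N] with n hn
      have h2 := hN n hn
      rw [Real.rpow_natCast, Real.norm_of_nonneg (by positivity), Real.norm_of_nonneg (by positivity)]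
      rw [div_mul_eq_mul_div, one_mul, le_div_iff₀ hc]
      linarith
    have h2 : (fun n : ℕ => (n : ℝ) ^ α) =o[atTop] (fun n : ℕ => (n : ℝ) ^ (d : ℝ)) := by
      rw [isLittleO_iff_tendsto']
      · have h5 : Tendsto (fun n : ℕ => ((n : ℝ)) ^ (-((d : ℝ) - α))) atTop (nhds 0) :=
          (tendsto_rpow_neg_atTop (sub_pos.2 hα)).comp tendsto_natCast_atTop_atTop
        refine h5.congr' ?_
        filter_upwards [eventually_gt_atTop 0] with n hn
        have h6 : (0 : ℝ) < n := by exact_mod_cast hn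
        rw [← Real.rpow_sub h6]
        congr 1
        ring
      · filter_upwards [eventually_gt_atTop 0] with n hn
        intro h7
        have h6 : (0 : ℝ) < n := by exact_mod_cast hn
        exact absurd h7 (Real.rpow_pos_of_pos h6 _).ne'
    have h3 : (fun n : ℕ => (n : ℝ) ^ (d : ℝ)) =o[atTop] (fun n : ℕ => (n : ℝ) ^ (d : ℝ)) :=
      (h1.trans hth.1).trans_isLittleO h2
    have h4 := isLittleO_irrefl (f'' := fun n : ℕ => (n : ℝ) ^ (d : ℝ)) (l := atTop) ?_
    · exact h4 h3
    · refine (eventually_gt_atTop 0).frequently.mono ?_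
      intro n hn
      have : (0 : ℝ) < n := by exact_mod_cast hn
      positivity
  refine ⟨part1, part2, ?_⟩
  intro H
  obtain ⟨α, -, hα, hth⟩ := H 2 3 le_rfl (by norm_num)
  exact part2 2 3 le_rfl (by norm_num) α hα hth

end Pool.Agent.Results.MP_da9eaf_co.PowerGrowth
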